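import Pool.Agent.U554.TU.App

/-!
# Cycle class maps over finite fields: bilinear equations and the cubics `T(x, y, z) = 1`

Let `k` be a finite field and `ℓ` a prime number different from its characteristic. The data
`O b m X`, for the separated schemes `X` of finite type over `k`, stand for the cycle class maps

  `c : CH_b(X, m) ⊗ ℚ_ℓ → H_{m + 2 b}(X̄, ℚ_ℓ(b))`

from Bloch's higher Chow groups to the étale (Borel-Moore) homology; `m = 0` is the map `cl_b` of the
problem. The operator `frob` is the Frobenius, its fixed elements are the Galois invariants.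
`IsCycleMap` lists the known properties which are used.

Let `T` be a trilinear form in three blocks `x`, `y`, `z` of `a₁`, `a₂`, `a₃` variables.

* `zeroS T` is the closed subvariety `Z_T` of `𝔸^(a₂ + a₃)` given by the `a₁` bilinear equations
  `∂T/∂x_i (y, z) = 0`;
* `hypS T` is the smooth affine hypersurface `Y_T : T(x, y, z) = 1` of dimension
  `d = a₁ + a₂ + a₃ - 1`; `O (d - j) m (hypS T)` is the map
  `CH^j(Y_T, m) ⊗ ℚ_ℓ → H^{2 j - m}(Ȳ_T, ℚ_ℓ(j))`.
-/

set_option autoImplicit false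

open CategoryTheory AlgebraicGeometry MvPolynomial Pool.Agent.Y116.UV Pool.Agent.U554.TU

universe w

namespace Pool.Agent.Results.MP_3af9db_ag.BilinearEquations

variable {K : Type} [Field K]

/-- The Frobenius. -/
def frob (X : Reg.{w} K Unit) : X.B →ₗ[K] X.B := X.act ()

/-- `c` is an isomorphism onto the elements which are fixed by the Frobenius. -/
def IsIsoInvariants (X : Reg.{w} K Unit) : Prop :=
  Function.Injective X.c ∧ ∀ x : X.B, frob X x = x → ∃ a : X.A, X.c a = x

/-- The eigenvalue `1` of the Frobenius is semisimple. -/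
def SemisimpleAtOne (X : Reg.{w} K Unit) : Prop :=
  ∀ x : X.B, frob X (frob X x - x) = frob X x - x → frob X x = x

/-- `Z` is a closed subscheme of `X` with complement `U` of finite type, and `α`, `β`, `δ` are the maps
of an exact sequence `⋯ → O_{b,m}(Z) → O_{b,m}(X) → O_{b,m}(U) → O_{b,m-1}(Z) → ⋯`. -/
structure IsLocalization {k : Type} [Field k] (O : ℤ → ℤ → Sch k → Reg.{w} K Unit) (b : ℤ)
    {Z X U : Sch k} (i : Z ⟶ X) (j : U ⟶ X) (α : ∀ m : ℤ, Reg.Hom (O b m Z) (O b m X))
    (β : ∀ m : ℤ, Reg.Hom (O b m X) (O b m U)) (δ : ∀ m : ℤ, Reg.Hom (O b (m + 1) U) (O b m Z)) :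
    Prop where
  triple : IsTriple i j
  ft : FT True U
  exact1 : ∀ m, Reg.Exact (α m) (β m)
  exact2 : ∀ m, Reg.Exact (β (m + 1)) (δ m)
  exact3 : ∀ m, Reg.Exact (δ m) (α m)

/-- The known properties of the cycle class maps over a finite field `k`: the properties `IsTheory`
(long exact sequences, homotopy invariance, ...; see `Pool.Agent.U554.TU.Reg`) and

* `point`: for `b < 0` the groups `CH_b(Spec k, m) ⊗ ℚ_ℓ` and `H_{m + 2 b}(Spec k̄, ℚ_ℓ(b))` are zero
  for `m = 0, 1` (the multiplicative group of `k` is finite);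
* `torsor`: homotopy invariance for affine bundles;
* `jouanolou`: smooth separated schemes of finite type have affine bundles with affine total space
  (Jouanolou, Thomason);
* `boundary`: `CH_b(X, m)` is a direct factor of `CH_b(X × 𝔾_m, m + 1)`, with the étale homology (cup
  product with the coordinate, boundary at `0`);
* `negative`: `CH_b(X, m) = 0` for `m < 0`;
* `support`: an element of `CH_b(X) ⊗ ℚ_ℓ` is the image of one of `CH_b(Z) ⊗ ℚ_ℓ` for a closed
  subscheme `Z` of dimension at most `b`; then the Frobenius acts on `H_{2 b}(Z̄, ℚ_ℓ(b))`, which is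
  generated by the classes of the irreducible components of `Z̄` of dimension `b`, with finite order;
* `geisser`: if for all smooth proper `V` and all `b` the map `CH_b(V) ⊗ ℚ_ℓ → H_{2 b}(V̄, ℚ_ℓ(b))` is
  an isomorphism onto the invariants and the eigenvalue `1` is semisimple (the conjectures of Tate and
  Beilinson), then the maps `c` are isomorphisms onto the invariants for all separated schemes of
  finite type and all `b`, `m` (Geisser's theorem that these conjectures imply Parshin's conjecture;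
  Jannsen, de Jong). -/
structure IsCycleMap {k : Type} [Field k] (O : ℤ → ℤ → Sch k → Reg.{w} K Unit) : Prop
    extends IsTheory O where
  point : ∀ b m : ℤ, b < 0 → (m = 0 ∨ m = 1) → (O b m (aff k k)).Triv
  torsor : BundleInvariant O
  jouanolou : ∀ X : Sch k, FT True X → Smooth X.hom → HasAffineBundle X
  boundary : ∀ (A : Type) [CommRing A] [Algebra k A] [Algebra.FiniteType k A] (b m : ℤ),
    Reg.Factor (O b m (aff k A)) (O b (m + 1) (aff k (LaurentPolynomial A)))
  negative : ∀ (X : Sch k) (b m : ℤ), FT True X → m < 0 → Subsingleton (O b m X).A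
  support : ∀ (X : Sch k) (b : ℤ) (z : (O b 0 X).A), FT True X →
    ∃ (Z U : Sch k) (i : Z ⟶ X) (j : U ⟶ X) (α : ∀ m : ℤ, Reg.Hom (O b m Z) (O b m X))
      (β : ∀ m : ℤ, Reg.Hom (O b m X) (O b m U)) (δ : ∀ m : ℤ, Reg.Hom (O b (m + 1) U) (O b m Z)),
      IsLocalization O b i j α β δ ∧ FT True Z ∧ (∃ y, (α 0).f y = z) ∧
      ∃ N : ℕ, 0 < N ∧ ∀ y, (frob (O b 0 Z) ^ N) y = y
  geisser : (∀ (V : Sch k) (b : ℤ), FT True V → Smooth V.hom → IsProper V.hom →
      IsIsoInvariants (O b 0 V) ∧ SemisimpleAtOne (O b 0 V)) →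
    ∀ (X : Sch k) (b m : ℤ), FT True X → IsIsoInvariants (O b m X)

/-- The closed subvariety `∂T/∂x_i (y, z) = 0`, `1 ≤ i ≤ a₁`, of the affine space with the coordinates
`y`, `z`. -/
noncomputable def zeroS {k : Type} [Field k] {a₁ a₂ a₃ : ℕ} (T : Fin a₁ → Fin a₂ → Fin a₃ → k) :
    Sch k :=
  aff k (MvPolynomial (Fin a₂ ⊕ Fin a₃) k ⧸
    Ideal.span (Set.range fun i => bil (Fin a₂) (Fin a₃) (T i)))

lemma inherited : Inherited (IsIsoInvariants (K := K)) := by
  rintro X Y ⟨s, r, h1, h2⟩ ⟨hY1, hY2⟩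
  refine ⟨?_, fun x hx => ?_⟩
  · rw [injective_iff_map_eq_zero]
    intro a ha
    have h3 : Y.c (s.f a) = 0 := by rw [← s.comm, ha, map_zero]
    have h4 : s.f a = 0 := (injective_iff_map_eq_zero _).mp hY1 _ h3
    rw [← h1 a, h4, map_zero]
  · obtain ⟨a, ha⟩ := hY2 (s.g x) (by
      change Y.act () (s.g x) = s.g x
      rw [← s.equi]
      exact congrArg s.g hx)
    refine ⟨r.f a, ?_⟩
    rw [← r.comm, ha, h2]

section

variable {k : Type} [Field k] {O : ℤ → ℤ → Sch k → Reg.{w} K Unit}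

lemma smooth_open {V U : Sch k} (j : U ⟶ V) (hj : IsOpenImmersion j.left) (hV : Smooth V.hom) :
    Smooth U.hom := by
  have h : U.hom = j.left ≫ V.hom := (Over.w j).symm
  rw [h]
  infer_instance

lemma equi' {X Y : Reg.{w} K Unit} (u : Reg.Hom X Y) (x : X.B) :
    u.g (frob X x) = frob Y (u.g x) := u.equi () x

/-- The eigenvalue `1` is semisimple if the open subschemes satisfy the Tate conjecture. -/
lemma semisimple [CharZero K] (hO : IsCycleMap O) (b : ℤ) (V : Sch k) (hV : FT True V)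
    (hs : Smooth V.hom)
    (h0 : ∀ X : Sch k, FT True X → HasAffineBundle X → IsIsoInvariants (O b 0 X)) :
    SemisimpleAtOne (O b 0 V) := by
  intro x hx
  obtain ⟨z, hz⟩ := (h0 V hV (hO.jouanolou V hV hs)).2 _ hx
  obtain ⟨Z, U, i, j, α, β, δ, hL, hZ, ⟨y, hy⟩, N, hN, hF⟩ := hO.support V b z hV
  have hU : HasAffineBundle U := hO.jouanolou U hL.ft (smooth_open j hL.triple.opened hs)
  have h1 : (β 0).g (frob _ x - x) = 0 := by
    rw [← hz, (β 0).comm, ← hy]
    have : (β 0).f ((α 0).f y) = 0 := ((hL.exact1 0).1 _).mpr ⟨y, rfl⟩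
    rw [this, map_zero]
  have h2 : frob _ ((β 0).g x) = (β 0).g x := by
    rw [map_sub, equi', sub_eq_zero] at h1
    exact h1
  obtain ⟨a, ha⟩ := (h0 U hL.ft hU).2 _ h2
  have h3 : ∃ a', (β 0).f a' = a := by
    have := hO.negative Z b (-1) hZ (by omega)
    have h4 := (hL.exact2 (-1)).1
    have h5 : ∀ t : (O b (-1 + 1) U).A, ∃ t', (β (-1 + 1)).f t' = t := fun t =>
      (h4 t).mp (Subsingleton.elim _ _)
    have h6 : ∀ t : (O b 0 U).A, ∃ t', (β 0).f t' = t := by
      rw [show (-1 : ℤ) + 1 = 0 from by norm_num] at h5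
      exact h5
    exact h6 a
  obtain ⟨a', ha'⟩ := h3
  have h4 : (β 0).g (x - (O b 0 V).c a') = 0 := by
    rw [map_sub, (β 0).comm, ha', ha, sub_self]
  obtain ⟨h, hh⟩ := ((hL.exact1 0).2 _).mp h4
  have h5 : frob _ x - x = (α 0).g (frob _ h - h) := by
    have h6 : frob (O b 0 V) ((O b 0 V).c a') = (O b 0 V).c a' := (O b 0 V).inv () a'
    rw [map_sub, equi', hh, map_sub, h6]
    abel
  have h6 : ∀ n : ℕ, (α 0).g ((frob (O b 0 Z) ^ n) h - h) = n • (frob _ x - x) := by
    intro n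
    induction n with
    | zero => simp
    | succ n ih =>
      have h7 : (frob (O b 0 Z) ^ (n + 1)) h - h =
          frob (O b 0 Z) ((frob (O b 0 Z) ^ n) h - h) + (frob _ h - h) := by
        rw [map_sub, pow_succ']
        change frob (O b 0 Z) ((frob (O b 0 Z) ^ n) h) - h = _
        abel
      rw [h7, map_add, equi', ih, ← h5, map_nsmul, hx, succ_nsmul]
  have h7 := h6 N
  rw [hF, sub_self, map_zero] at h7
  have h8 : ((N : ℕ) : K) • (frob _ x - x) = 0 := by
    rw [Nat.cast_smul_eq_nsmul]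
    exact h7.symm
  rcases smul_eq_zero.mp h8 with h9 | h9
  · exact absurd h9 (by exact_mod_cast hN.ne')
  · exact sub_eq_zero.mp h9

/-- The property for the affine schemes passes to the lower degrees. -/
lemma descend (hO : IsCycleMap O) (d : ℕ) (m : ℤ)
    (h : ∀ (A : Type) [CommRing A] [Algebra k A] [Algebra.FiniteType k A] (b : ℤ),
      IsIsoInvariants (O b (m + d) (aff k A))) :
    ∀ (A : Type) [CommRing A] [Algebra k A] [Algebra.FiniteType k A] (b : ℤ),
      IsIsoInvariants (O b m (aff k A)) := by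
  induction d with
  | zero => simpa using h
  | succ d ih =>
    apply ih
    intro A _ _ _ b
    have h2 := hO.boundary A b (m + d)
    have h3 : Algebra.FiniteType k (LaurentPolynomial A) := ft_laurent A
    have h4 := h (LaurentPolynomial A) b
    rw [show m + ((d + 1 : ℕ) : ℤ) = m + d + 1 from by push_cast; ring] at h4
    exact inherited _ _ h2 h4

/-- From one degree `n ≥ 0` for the affine schemes to everything. -/
lemma all_iso [CharZero K] (hO : IsCycleMap O) (n : ℤ) (hn : 0 ≤ n)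
    (h : ∀ (A : Type) [CommRing A] [Algebra k A] [Algebra.FiniteType k A] (b : ℤ),
      IsIsoInvariants (O b n (aff k A))) (X : Sch k) (b m : ℤ) (hX : FT True X) :
    IsIsoInvariants (O b m X) := by
  have h0 := descend hO n.toNat 0 (fun A _ _ _ b => by
    rw [show (0 : ℤ) + (n.toNat : ℤ) = n from by omega]
    exact h A b)
  have k0 : ∀ (b : ℤ) (X : Sch k), FT True X → HasAffineBundle X → IsIsoInvariants (O b 0 X) :=
    fun b X hX hX' => bundle_of_affine hO.torsor inherited 0 h0 X hX hX' b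
  exact hO.geisser (fun V b hV hs _ => ⟨k0 b V hV (hO.jouanolou V hV hs),
    semisimple hO b V hV hs (k0 b)⟩) X b m hX

/-- The groups of the affine space of dimension `r` in the weights `b < r` and the degrees `0`, `1`. -/
lemma space_triv (hO : IsCycleMap O) (r : ℕ) (b m : ℤ) (hb : b < r) (hm : m = 0 ∨ m = 1) :
    (O b m (aff k (MvPolynomial (Fin r) k))).Triv := by
  have h := hO.space k r (b - r) m
  rw [sub_add_cancel] at h
  exact h.factor'.triv (hO.point _ m (by omega) hm)

/-- The bilinear equations and the hypersurface: `O_{b,0}(Z_T) = O_{b + a₁ - 1, 1}(Y_T)`. -/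
lemma zero_hyp (hO : IsCycleMap O) {a₁ a₂ a₃ : ℕ} (T : Fin a₁ → Fin a₂ → Fin a₃ → k) (j : ℕ)
    (hj : 1 ≤ j) :
    Reg.Iso (O (a₁ + a₂ + a₃ - 1 - j) 1 (hypS T)) (O (a₂ + a₃ - j) 0 (zeroS T)) := by
  have hB := hO.toIsTheory
  let f : Fin a₁ → MvPolynomial (Fin a₂ ⊕ Fin a₃) k := fun i => bil (Fin a₂) (Fin a₃) (T i)
  have e : MvPolynomial (Fin a₂ ⊕ Fin a₃) k ≃ₐ[k] MvPolynomial (Fin (a₂ + a₃)) k :=
    renameEquiv k finSumFinEquiv
  have h0 : (O (a₂ + a₃ - j) 0 (aff k (MvPolynomial (Fin a₂ ⊕ Fin a₃) k))).Triv :=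
    (hB.alg e _ 0).factor.triv (space_triv hO _ _ 0 (by push_cast; omega) (Or.inl rfl))
  have h1 : (O (a₂ + a₃ - j) (0 + 1) (aff k (MvPolynomial (Fin a₂ ⊕ Fin a₃) k))).Triv := by
    rw [zero_add]
    exact (hB.alg e _ 1).factor.triv (space_triv hO _ _ 1 (by push_cast; omega) (Or.inr rfl))
  have h2 := hB.closed _ _ (ft_aff True) (triple_ne f) h0 h1
  rw [zero_add] at h2
  have h3 := (hyp_bundle hO.toIsTheory T (a₂ + a₃ - j) 1).symm
  rw [show (a₂ + a₃ - j + a₁ - 1 : ℤ) = a₁ + a₂ + a₃ - 1 - j from by ring] at h3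
  exact h3.trans h2

end

/-- **Q1, bilinear equations, and the cubic hypersurfaces `T(x, y, z) = 1`.** Let `k` be a finite
field, `ℓ` a prime number, and let `O b m X` have the known properties of the cycle class maps
`CH_b(X, m) ⊗ ℚ_ℓ → H_{m + 2 b}(X̄, ℚ_ℓ(b))` for the separated schemes `X` of finite type over `k`. Let
`n ≥ 1` be an arbitrary fixed number. The following assertions are equivalent:
* (Q1 for `k` and `ℓ`) `cl_b` is an isomorphism onto the Galois invariants for all `X` and all `b`;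
* all maps `c` (for all `X`, `b`, `m`) are isomorphisms onto the Galois invariants;
* `cl_b` is an isomorphism onto the Galois invariants for all `b` and all closed subvarieties `Z_T` of
  `𝔸^(a₂ + a₃)` which are given by a finite number of bilinear equations in `a₂ + a₃` variables;
* the maps `CH^j(Y_T, n) ⊗ ℚ_ℓ → H^{2 j - n}(Ȳ_T, ℚ_ℓ(j))` are isomorphisms onto the Galois invariants
  for all trilinear forms `T` and all `j ≥ 1`.
If `k` is a prime field, the bilinear equations with coefficients `0` and `1` are sufficient in the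
third assertion, and the hypersurfaces `∑_{(i, j, k) ∈ H} x_i y_j z_k = 1`, `H` a finite set of triples,
in the last one. -/
theorem result (k : Type) [Field k] [Finite k] (ℓ : ℕ) [Fact ℓ.Prime]
    (O : ℤ → ℤ → Sch k → Reg.{w} ℚ_[ℓ] Unit) (hO : IsCycleMap O) (n : ℤ) (hn : 1 ≤ n) :
    List.TFAE [
      ∀ (X : Sch k) (b : ℤ), FT True X → IsIsoInvariants (O b 0 X),
      ∀ (X : Sch k) (b m : ℤ), FT True X → IsIsoInvariants (O b m X),
      ∀ (a₁ a₂ a₃ : ℕ) (T : Fin a₁ → Fin a₂ → Fin a₃ → k) (b : ℤ),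
        IsIsoInvariants (O b 0 (zeroS T)),
      ∀ (a₁ a₂ a₃ : ℕ) (T : Fin a₁ → Fin a₂ → Fin a₃ → k) (j : ℕ), 1 ≤ j →
        IsIsoInvariants (O (a₁ + a₂ + a₃ - 1 - j) n (hypS T))] ∧
    (Function.Surjective (Int.cast : ℤ → k) →
      List.TFAE [
        ∀ (X : Sch k) (b : ℤ), FT True X → IsIsoInvariants (O b 0 X),
        ∀ (a₁ a₂ a₃ : ℕ) (T : Fin a₁ → Fin a₂ → Fin a₃ → k), (∀ i j l, T i j l = 0 ∨ T i j l = 1) →
          ∀ b : ℤ, IsIsoInvariants (O b 0 (zeroS T)),
        ∀ (a₁ a₂ a₃ : ℕ) (H : Finset (Fin a₁ × Fin a₂ × Fin a₃)) (j : ℕ), 1 ≤ j →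
          IsIsoInvariants (O (a₁ + a₂ + a₃ - 1 - j) n (tripS k H))]) := by
  have hT := hO.toIsTheory
  have hz : ∀ (S : Set k), 0 ∈ S → 1 ∈ S → Presents S →
      (∀ (a₁ a₂ a₃ : ℕ) (T : Fin a₁ → Fin a₂ → Fin a₃ → k), (∀ i j l, T i j l ∈ S) →
        ∀ b : ℤ, IsIsoInvariants (O b 0 (zeroS T))) →
      ∀ (X : Sch k) (b m : ℤ), FT True X → IsIsoInvariants (O b m X) := by
    intro S h0 h1 hS h X b m hX
    refine all_iso hO 0 le_rfl ?_ X b m hX
    intro A _ _ _ b
    refine affine_of_hyp hT inherited h0 h1 hS 0 (fun a₁ a₂ a₃ T hT' j hj => ?_) A b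
    rw [zero_add]
    exact (inherited.iff (zero_hyp hO T j hj)).mpr (h a₁ a₂ a₃ T hT' _)
  have hy : ∀ (S : Set k), 0 ∈ S → 1 ∈ S → Presents S →
      (∀ (a₁ a₂ a₃ : ℕ) (T : Fin a₁ → Fin a₂ → Fin a₃ → k), (∀ i j l, T i j l ∈ S) →
        ∀ j : ℕ, 1 ≤ j → IsIsoInvariants (O (a₁ + a₂ + a₃ - 1 - j) n (hypS T))) →
      ∀ (X : Sch k) (b m : ℤ), FT True X → IsIsoInvariants (O b m X) := by
    intro S h0 h1 hS h X b m hX
    refine all_iso hO (n - 1) (by omega) ?_ X b m hX
    intro A _ _ _ b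
    refine affine_of_hyp hT inherited h0 h1 hS (n - 1) (fun a₁ a₂ a₃ T hT' j hj => ?_) A b
    rw [sub_add_cancel]
    exact h a₁ a₂ a₃ T hT' j hj
  refine ⟨?_, ?_⟩
  · tfae_have 2 → 1 := fun h X b hX => h X b 0 hX
    tfae_have 1 → 3 := fun h a₁ a₂ a₃ T b => h _ _ (ft_aff True)
    tfae_have 3 → 2 := fun h =>
      hz Set.univ trivial trivial presents_univ fun a₁ a₂ a₃ T _ b => h a₁ a₂ a₃ T b
    tfae_have 2 → 4 := fun h a₁ a₂ a₃ T j _ => h _ _ _ (ft_aff True)
    tfae_have 4 → 2 := fun h =>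
      hy Set.univ trivial trivial presents_univ fun a₁ a₂ a₃ T _ j hj => h a₁ a₂ a₃ T j hj
    tfae_finish
  · intro hk
    have hp : ∀ (X : Sch k) (b : ℤ), (∀ (X : Sch k) (b m : ℤ), FT True X →
      IsIsoInvariants (O b m X)) → FT True X → IsIsoInvariants (O b 0 X) :=
        fun X b h hX => h X b 0 hX
    tfae_have 1 → 2 := fun h a₁ a₂ a₃ T _ b => h _ _ (ft_aff True)
    tfae_have 2 → 1 := fun h X b => hp X b <|
      hz {0, 1} (Or.inl rfl) (Or.inr rfl) (presents_zero_one hk) fun a₁ a₂ a₃ T hT' b =>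
        h a₁ a₂ a₃ T hT' b
    tfae_have 1 → 3 := by
      intro h a₁ a₂ a₃ H j _
      have h2 := hz Set.univ trivial trivial presents_univ
        fun a₁ a₂ a₃ T _ b => h (zeroS T) b (ft_aff True)
      exact h2 _ _ _ (ft_aff True)
    tfae_have 3 → 1 := fun h X b => hp X b <|
      hy {0, 1} (Or.inl rfl) (Or.inr rfl) (presents_zero_one hk) fun a₁ a₂ a₃ T hT' j hj => by
        obtain ⟨H, hH⟩ := hyp_zero_one T hT'
        rw [hH]
        exact h a₁ a₂ a₃ H j hj
    tfae_finish

end Pool.Agent.Results.MP_3af9db_ag.BilinearEquations
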