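import Pool.Agent.U222.SL.G3

/-!
# Cycle classes on products of arbitrary varieties with cyclic coverings of large prime degrees

Let `κ` be a finite field with `q = c ^ f` elements, and `𝒱` a class of smooth projective varieties over
`κ`, closed under products, with Chow groups `A` with rational coefficients and a Weil cohomology theory
`H` (framework of helper492 and helper484: `TheoryData`, `IsChow`, `IsWeil`). Let `X_i` be varieties in
`𝒱`, of any dimensions `n_i ≥ 1`, which are models of the cyclic coverings

  `w ^ N_i = ∏_k l_{i,k} (x) ^ a_{i,k}`   (`a_{i,k} ≥ 1`, `∑_k a_{i,k} = A_i ≥ 2`)

of the affine space of dimension `n_i`, branched along hyperplanes over `κ` (any arrangement of hyperplanes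
which together with the hyperplane at infinity have no common point), where the `N_i` are different prime
numbers dividing `c - 1` (`IsModel`: the cohomology is generated by the classes of cycles and a part `T`,
pure of weight `n_i`, without invariants under the covering group, for which the trace formula holds).

Let `U` be **any** variety over `κ` (open, singular, reducible), `e = dim U`, and `Z` **any** variety in `𝒱`.
Let `M = ⨁ M^c` with `M^c = H_{2e-c}(Ū, ℚ_ℓ(e)) ⊗ K`, the étale homology, with the
geometric Frobenius `μ` (`Homology`; for `U` smooth of pure dimension `e` this is the cohomology
`H^c(Ū)`). For `X` in `𝒱` let `R(X) = H(X) ⊗ M`, with the Frobenius `Φ = F_X ⊗ μ`. By the Künneth formula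
`H_{2i}(X̄ × Ū, ℚ_ℓ(i)) ⊗ K` is, with `n = dim X + e - i`, the sum of the `H^a(X) ⊗ M^c` with `a + c = 2 n`
(`degreePart`), and the eigenvalue `1` of `Frob_q` on it is the eigenvalue `q ^ n` of `Φ`. Let `T` be the
theory `T^n(X) = CH_i(X × U) ⊗ K`, `i = dim X + e - n`, with the Frobenius `φ` of `U`, and `reg` the
cycle class map (on `T` act the correspondences between the varieties in `𝒱`, the cycle class map
commutes with this, and the Frobenius of `X × U` is `q ^ n` on `T^n(X)`: `IsTheory`, `HasFrobenius`,
`IsRegulator`).

Let `χ` be a polynomial with rational coefficients, `χ (0) ≠ 0`, with `χ(μ) = 0`, let `B` be the set of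
the products `β` of an eigenvalue of Frobenius on `H(Z)` and of a complex root of `χ`, and suppose that
the `β` are algebraic with `|β| ^ 2 = q ^ d` (theorem of Deligne). Let `b` be a number such that

  `N_i > A_i ^ 2 b + A_i` for all `i`, and every `β` in `B` has degree at most `2 b + 1` over `ℚ`.

**For given `Z` and `U` these are conditions on the size of the primes `N_i` only.** The condition on `B`
which is used (`IsFewBase`) is weaker; it is sufficient that for every `β` in `B`
* the minimal polynomial has at most `2 b + 1` irreducible factors over the field of the roots of unity
  of order `∏ N_i`,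
* or at most `b` of the conjugates of `β` have a slope smaller than `(d - λ) / 2`, where `λ` is a number
  with `λ < n_i` for all `i` (for `b = 0`: all `Z × U` of level at most `λ`).

**Theorem.** Let `V` be the product of `Z` and of finitely many pairwise different `X_i`, and
`e' = dim V - dim Z`. For every integer `i`:
* `cl_i` is surjective for `V × U` if and only if `cl_{i-l}` is surjective for `Z × U` for `0 ≤ l ≤ e'`.
* `SS_i(V × U)` is true if and only if `SS_{i-l}(Z × U)` is true for `0 ≤ l ≤ e'`. Nothing else is assumed.
* Assume that homologically trivial self-correspondences of degree zero of the products `V` are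
  nilpotent (known for example if `Z` is a point and the `X_i` are curves) and that `χ (φ) = 0` on the
  Chow groups of the `X × U` (for example if the motive of `U` is finite-dimensional). Then `cl_i` is
  injective for `V × U` if and only if the `cl_{i-l}` are injective for `Z × U`, `0 ≤ l ≤ e'`, and
  **`cl_i` is an isomorphism for `V × U` if and only if the `cl_{i-l}` are isomorphisms for `Z × U`,
  `0 ≤ l ≤ e'`**. So the answer to Q1 for `V × U` is the same as for `Z × U`.

The starting result `MP_3af9db_ag.HyperplaneCoverings` (helper876) is the other case: arbitrary degrees,
but either the cyclotomic polynomial of order `∏ N_i` is irreducible over the field of the numbers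
`β`, or `Z × U` is of level smaller than the dimensions of the `X_i`. Here there is no condition on the
field generated by the `β`, nor on the level or the dimension of `Z × U`: the primes `N_i` only have to be
large against the degrees of the `β`.

The proof. Let `α_i` be eigenvalues of the Frobenius on the parts `T_i`, for `i` in a nonempty set `I`,
with the characters `j_i` of the covering groups, and suppose that `β ∏ α_i` is a power of `q` times a
root of unity. There are `b + 1` automorphisms `σ_k` of the field of algebraic numbers
such that `σ_k j_i` are among the integers between `0` and `N_i / A_i`, and such that for any two of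
them there is an automorphism `τ` for which the `τ σ_k j_i` are again in this interval and the
`τ σ_l j_i` in its negative (theorem of Thue). By the theorem of Stickelberger on Gauss sums,
`∏ τ σ_k α_i` and `∏ τ σ_l α_i` have different `c`-adic valuations, so `σ_k β ≠ σ_l β`. So `β` has `b + 1`
different conjugates with small slopes, and with the complex conjugates `2 b + 2` different
conjugates, which is impossible. From this the decomposition of the Chow groups and of the étale
homology follows by projectors in the ring generated by the Frobenius and the algebraic cycles
(helper876).

helper222 (`Pool/Agent/U222/SL`); the part on Chow groups, with its definitions, is the library of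
helper876 (`N876/CG`, `N876/GB3`), built on helpers 484, 492, 550; the slopes on cyclic coverings:
helper876 (`N876/TC`) and the estimates of sums over hyperplane arrangements by Gauss sums (helper528
and others). The idea of large prime degrees is due to helper231.
-/

set_option autoImplicit false

open Polynomial CategoryTheory AlgebraicGeometry

namespace Pool.Agent.Results.MP_3af9db_ag.LargePrimeCoverings

open Pool.Agent.H914 Pool.Agent.H914.VarClass Pool.Agent.H914.VarClass.Obj Pool.Agent.W492.BB
  Pool.Agent.W484.CK Pool.Agent.U222.SL.G3

/-- **Cycle classes on products of arbitrary varieties with cyclic coverings of large prime degrees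
branched along hyperplanes.** -/
theorem result (c : ℕ) [Fact c.Prime] (κ : Type) [Field κ] [Fintype κ] [CharP κ c] {ι : Type}
    [Fintype ι] (C : ι → Covering κ) (f lam b : ℕ) (hC : IsLargeSystem C c f lam b)
    {𝒱 : VarClass κ} (A : TheoryData.{0, 0, 0} 𝒱 ℚ) [IsChow A] {K : Type} [Field K]
    [IsAlgClosed K] [CharZero K] (H : WeilTheoryData.{0, 0, 0} A K) [IsWeil H] (τ : K →+* ℂ)
    (F : ∀ X : 𝒱.Obj, X ⟶ X) (X : ι → 𝒱.Obj) (Z : 𝒱.Obj) (χ : ℚ[X])
    (h : IsCoveringSystem C c lam b H τ F X Z χ) (U : Homology K) (hU : IsHomology U χ)
    (T : Theory A) (hT : IsTheory T) (hF : HasFrobenius T F (Fintype.card κ))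
    (reg : ∀ X, T.M X → U.R H X) (hreg : IsRegulator T reg) (L : List ι) (hL : L.Nodup) :
    Conclusions F (Fintype.card κ) χ X Z T reg L :=
  main c κ C f lam b hC A H τ F X Z χ h U hU T hT hF reg hreg L hL

end Pool.Agent.Results.MP_3af9db_ag.LargePrimeCoverings
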