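import Pool.Agent.U173.PS.G3

/-!
# Cycle classes on products of arbitrary varieties with varieties whose slope fields meet pairwise in
# totally real fields

Let `𝒱` be a class of smooth projective varieties over the field `κ` with `q = p ^ m` elements, closed under
products, with Chow groups `A` with rational coefficients and a Weil cohomology theory `H` with an
algebraically closed field `C` of coefficients (framework of the starting library: `TheoryData`, `IsChow`,
`IsWeil`), and fix a place `ι` above `p` of the field `ℚ̄` of algebraic numbers. A *slope field* of an
algebraic number `ν` is a subfield `L` of `ℚ̄` such that the automorphisms of `ℚ̄` over `L` do not change the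
absolute values at `ι` of the conjugates of `ν` (`HasSlopesIn`); a slope field of a variety is a slope field of
its Frobenius eigenvalues. (For example the reflex field of the CM type given by the slopes, for an
ordinary abelian variety and all its powers; in general the field of definition of the slope cocharacter of
the Frobenius torus, which is totally real or a CM field.)

Let `E` be a totally real field and let `X i` be varieties such that the cohomology of `X i` is generated
by the classes of cycles and a Frobenius-stable subspace on which all eigenvalues are Weil numbers with
slope field `L i`, and not supersingular (`IsGoodAlgebra`: **this is the Tate conjecture for `X i` with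
semisimplicity**, if there are no supersingular eigenvalues in odd degrees). We suppose that the fields
`L i` contain `E`, are normal over `E` with at most one exception, and meet **pairwise** in totally real
fields (`ArePairwise`). Let `Z` be **any** variety in `𝒱` with a slope field `M` which contains `E` and meets
each `L i` in a totally real field (`IsSlopeFamily`). Nothing is assumed on the composita of the fields, on
the size of the Betti numbers, or on the relations between the eigenvalues of one `X i`.

Let `U` be **any** variety over `κ` (open, singular, reducible), `e = dim U`. Let `N = ⨁ N^c` with
`N^c = H_{2e-c}(Ū, ℚ_ℓ(e)) ⊗ C`, the étale homology, with the geometric Frobenius `μ` (`Homology`; for `U` smooth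
of pure dimension `e` this is the cohomology `H^c(Ū)`). For `X` in `𝒱` let `R(X) = H(X) ⊗ N`, with the
Frobenius `Φ = F_X ⊗ μ`. By the Künneth formula `H_{2i}(X̄ × Ū, ℚ_ℓ(i)) ⊗ C` is, with `n = dim X + e - i`, the
sum of the `H^a(X) ⊗ N^c` with `a + c = 2 n` (`degreePart`), and the eigenvalue `1` of `Frob_q` on it is the
eigenvalue `q ^ n` of `Φ`. Let `T` be the theory `T^n(X) = CH_i(X × U) ⊗ C`, `i = dim X + e - n`, with the
Frobenius `φ` of `U`, and `reg` the cycle class map (on `T` act the correspondences between the varieties in
`𝒱`, the cycle class map commutes with this, and the Frobenius of `X × U` is `q ^ n` on `T^n(X)`: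
`IsTheory`, `HasFrobenius`, `IsRegulator`). Let `χ` be a polynomial with rational coefficients, `χ (0) ≠ 0`,
which is satisfied by `μ`, and suppose that its roots (the Frobenius eigenvalues of `U`) have the slope
field `M`.

**Theorem.** Let `V` be the product of `Z` and of finitely many pairwise different `X i`, and
`e' = dim V - dim Z`. For every integer `i`:
* `cl_i` is surjective for `V × U` if and only if `cl_{i-l}` is surjective for `Z × U` for `0 ≤ l ≤ e'`.
* `SS_i(V × U)` is true if and only if `SS_{i-l}(Z × U)` is true for `0 ≤ l ≤ e'`. Nothing else is assumed.
* Assume that homologically trivial self-correspondences of degree zero of the products `V` are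
  nilpotent (known for example if `Z` and the `X i` are dominated by products of curves) and that
  `χ (φ) = 0` on the Chow groups of the `X × U` (for example if the motive of `U` is finite-dimensional).
  Then `cl_i` is injective for `V × U` if and only if the `cl_{i-l}` are injective for `Z × U`,
  `0 ≤ l ≤ e'`, and **`cl_i` is an isomorphism for `V × U` if and only if the `cl_{i-l}` are isomorphisms
  for `Z × U`, `0 ≤ l ≤ e'`**. So the answer to Q1 for `V × U` is the same as for `Z × U`.

For example, `X i` can be a product of varieties of Fermat type of degree `N_i` (or of abelian varieties
with complex multiplication by the field of the `N_i`-th roots of unity), with Tate conjecture, of any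
dimensions, for pairwise coprime numbers `N_i`: a slope field is the decomposition field of `p` in the field
of the `N_i`-th roots of unity. More generally it is enough that `-1` is a power of `p` modulo the greatest
common divisor of `N_i` and `N_j`, for `i ≠ j`.

The proof. Let `α i` be Frobenius eigenvalues on the second parts of the `H(X i)`, for `i` in a nonempty
finite set, and `β` a product of an eigenvalue on `H(Z)` and of a root of `χ`, such that `β ∏ α i` is a power
of `p` up to a root of unity. The functions `2 log |g α i| - const` on the Galois group are odd under the
complex conjugation and invariant under `H i = Gal(ℚ̄ / L i)`, their sum is invariant under `Gal(ℚ̄ / M)`.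
The average over `H i` is central for `L i` normal over `E`, so it kills the other functions (the groups
`H i` and `H j` generate a group which contains the complex conjugation). So each of these functions is
invariant under `H i` and `Gal(ℚ̄ / M)`, hence zero, and `α i` is supersingular, a contradiction
(`U173/SL/Pair`). The decomposition of the Chow groups and of the étale homology then follows by
projectors in the ring generated by the Frobenius and the algebraic cycles (helper876, `N876/CG`,
`N876/GB3`; definitions and bridges of helper222 and helper231, `U231/FR`).
-/

set_option autoImplicit false

open Polynomial CategoryTheory AlgebraicGeometry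

namespace Pool.Agent.Results.MP_3af9db_ag.PairwiseSlopeFields

open Pool.Agent.H914 Pool.Agent.H914.VarClass Pool.Agent.H914.VarClass.Obj Pool.Agent.W492.BB
  Pool.Agent.W484.CK Pool.Agent.U173.PS
  Pool.Agent.U231.FR.G3

/-- **Cycle classes on products of arbitrary varieties with varieties whose slope fields meet pairwise in
totally real fields.** -/
theorem result {κ : Type} [Field κ] {𝒱 : VarClass κ} (A : TheoryData.{0, 0, 0} 𝒱 ℚ) [IsChow A]
    {C : Type} [Field C] [IsAlgClosed C] [CharZero C] (H : WeilTheoryData.{0, 0, 0} A C) [IsWeil H]
    {I : Type} (p m : ℕ) [Fact p.Prime] (ι : AlgebraicClosure ℚ →+* PadicAlgCl p)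
    (E M : IntermediateField ℚ (AlgebraicClosure ℚ))
    (L : I → IntermediateField ℚ (AlgebraicClosure ℚ)) (F : ∀ X : 𝒱.Obj, X ⟶ X) (X : I → 𝒱.Obj)
    (Z : 𝒱.Obj) (h : IsSlopeFamily p m ι E M L H F X Z) (χ : ℚ[X]) (hχ0 : χ.coeff 0 ≠ 0)
    (hχ : ∀ ρ : C, aeval ρ χ = 0 → HasSlopesIn p ι M ρ)
    (U : Homology C) (hU : IsHomology U χ) (T : Theory A) (hT : IsTheory T)
    (hF : HasFrobenius T F (p ^ m)) (reg : ∀ X, T.M X → U.R H X) (hreg : IsRegulator T reg)
    (l : List I) (hl : l.Nodup) : Conclusions F (p ^ m) χ X Z T reg l :=
  G3.main h hχ0 hχ U hU T hT hF reg hreg l hl

end Pool.Agent.Results.MP_3af9db_ag.PairwiseSlopeFields
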